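import Pool.Agent.MVD.StmtsLoc

/-!
# Squad MVD, row EIN: induction for `EF`
-/

set_option autoImplicit false

namespace Pool.Agent.MVD.H41

open Pool.Agent.Helper14_MV Pool.Agent.Helper2_MV

theorem ein (ecn : EcnStmt) (vec : VecStmt) (epn : EpnStmt) (ctx : CtxStmt) : EinStmt := by
  intro β hc ce hgf
  rcases vec β hc.s2 hc.zz with vx | h
  swap
  · exact h
  intro n
  induction n with
  | zero =>
    intro p c q x y hcl _ hx
    have hc0 : c = [] := List.eq_nil_of_length_eq_zero (by omega)
    subst hc0
    simp only [List.nil_append]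
    -- two letters `x` in `p`
    have h1 : x ∈ p := List.count_pos_iff.1 (by omega)
    obtain ⟨p1, r, rfl⟩ := List.append_of_mem h1
    have h2 : ∃ s1 s2 s3 : List ℕ, p1 ++ x :: r = s1 ++ x :: (s2 ++ x :: s3) := by
      rw [List.count_append, List.count_cons_self] at hx
      rcases Nat.eq_zero_or_pos (p1.count x) with h0 | h0
      · have h3 : x ∈ r := List.count_pos_iff.1 (by omega)
        obtain ⟨r1, r2, rfl⟩ := List.append_of_mem h3
        exact ⟨p1, r1, r2, rfl⟩
      · have h3 : x ∈ p1 := List.count_pos_iff.1 h0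
        obtain ⟨r1, r2, rfl⟩ := List.append_of_mem h3
        exact ⟨r1, r2, r, by simp⟩
    obtain ⟨s1, s2, s3, h3⟩ := h2
    have hxp : x ∈ p1 ++ x :: r := by simp
    have e1 := (ctx β).2.1 hc.s2 (p1 ++ x :: r) (y :: q) x y hxp (by simp)
    refine β.trans (RR.symm e1) ?_
    rw [h3]
    have e2 := RR.sub (fun i => if i = 0 then [x] else if i = 2 then s2 else if i = 5 then s3
      else [y]) ce
    simp only [List.flatMap_cons, List.flatMap_nil] at e2
    norm_num at e2
    have e3 := ((RR.refl (β := β) s1).append e2).append (RR.refl (β := β) q)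
    have e4 : s1 ++ x :: (s2 ++ x :: s3) ++ x :: y :: y :: q =
        s1 ++ x :: (s2 ++ x :: (s3 ++ [x, y, y])) ++ q := by simp
    have e5 : s1 ++ x :: (s2 ++ x :: s3) ++ y :: y :: x :: q =
        s1 ++ x :: (s2 ++ x :: (s3 ++ [y, y, x])) ++ q := by simp
    rw [e4, e5]
    exact e3
  | succ n ih =>
    refine ecn β n hc ih hgf ?_
    intro t1 t2 P1 P2 P3 Q α hnd hcan hlen
    by_contra hnr
    exact epn β n t1 t2 P1 P2 P3 Q α
      { hc := hc
        vx := vx
        ef := ih
        can := hcan
        nd := hnd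
        len := hlen
        hx := ⟨by norm_num, by norm_num⟩
        hy := ⟨by norm_num, by norm_num⟩
        xy := by norm_num
        nr := hnr }

end Pool.Agent.MVD.H41
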