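import Pool.Agent.MVD.StmtsLoc
import Pool.Agent.Helper40_MVD.Base

/-!
# Squad MVD, row GPN: the pentagon for `GF`
-/

set_option autoImplicit false

namespace Pool.Agent.MVD.H41

open Pool.Agent.Helper14_MV Pool.Agent.Helper2_MV Pool.Agent.MVD.H40

/-! ### words -/

theorem wm_bl (P Q L : List ℕ) : Wm P Q L = Bw (lab P Q) (bl L) := rfl

theorem plc_mod {S : List ℕ} {c : ℕ} (h : c ∈ plc S) : c % 3 ≠ 0 := by
  rcases mem_plc h with ⟨e, _, rfl⟩ | ⟨e, _, rfl⟩ <;> omega

theorem plc_filter (S : List ℕ) (p : ℕ → Bool) (hp : ∀ c, c % 3 ≠ 0 → p c = true) :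
    (plc S).filter p = plc S :=
  List.filter_eq_self.2 (fun c hc => hp c (plc_mod hc))

theorem wm_filter (P Q L : List ℕ) (p : ℕ → Bool) (hp : ∀ c, c % 3 ≠ 0 → p c = true) :
    (Wm P Q L).filter p = Wm P Q (L.filter p) := by
  rw [wm_eq, wm_eq, List.filter_append, List.filter_append, List.filter_cons,
    plc_filter _ _ hp, plc_filter _ _ hp, if_pos (hp 2 (by norm_num))]

theorem wm_inj {P Q L L' : List ℕ} (h : Wm P Q L = Wm P Q L') : L = L' := by
  rw [wm_eq, wm_eq] at h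
  exact List.append_cancel_right (List.append_cancel_left h)

theorem plc_cons (e : ℕ) (S : List ℕ) : plc (e :: S) = (3 * e + 1) :: (3 * (e + 1) + 2) :: plc S :=
  rfl

theorem plc_append (S T : List ℕ) : plc (S ++ T) = plc S ++ plc T := by
  unfold plc
  rw [List.flatMap_append]

theorem count_plc (S : List ℕ) (i : ℕ) : (plc S).count (3 * i + 1) = S.count i := by
  induction S with
  | nil => rfl
  | cons e S ih =>
    rw [plc_cons, List.count_cons, List.count_cons, ih, List.count_cons]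
    have h1 : ((3 * (e + 1) + 2 == 3 * i + 1) : Bool) = false := by
      rw [beq_eq_false_iff_ne]
      omega
    have h2 : ((3 * e + 1 == 3 * i + 1) : Bool) = (e == i) := by
      rw [Bool.eq_iff_iff, beq_iff_eq, beq_iff_eq]
      omega
    rw [h1, h2]
    simp

theorem count_plc2 (S : List ℕ) (i : ℕ) : (plc S).count (3 * (i + 1) + 2) = S.count i := by
  induction S with
  | nil => rfl
  | cons e S ih =>
    rw [plc_cons, List.count_cons, List.count_cons, ih, List.count_cons]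
    have h1 : ((3 * e + 1 == 3 * (i + 1) + 2) : Bool) = false := by
      rw [beq_eq_false_iff_ne]
      omega
    have h2 : ((3 * (e + 1) + 2 == 3 * (i + 1) + 2) : Bool) = (e == i) := by
      rw [Bool.eq_iff_iff, beq_iff_eq, beq_iff_eq]
      omega
    rw [h1, h2]
    simp

theorem count_plc0 (S : List ℕ) (c : ℕ) (hc : c % 3 = 0) : (plc S).count c = 0 :=
  List.count_eq_zero.2 (fun h => plc_mod h hc)

theorem count_plc_le {S : List ℕ} (hS : S.Nodup) (c : ℕ) : (plc S).count c ≤ 1 := by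
  rcases (by omega : c % 3 = 0 ∨ c % 3 = 1 ∨ c % 3 = 2) with h | h | h
  · rw [count_plc0 S c h]
    exact Nat.zero_le _
  · have h1 : c = 3 * (c / 3) + 1 := by omega
    rw [h1, count_plc]
    exact List.nodup_iff_count_le_one.1 hS _
  · rcases Nat.eq_zero_or_pos (c / 3) with h0 | h0
    · rw [List.count_eq_zero.2]
      · exact Nat.zero_le _
      · intro hc
        rcases mem_plc hc with ⟨e, _, h2⟩ | ⟨e, _, h2⟩ <;> omega
    · have h1 : c = 3 * ((c / 3 - 1) + 1) + 2 := by omega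
      rw [h1, count_plc2]
      exact List.nodup_iff_count_le_one.1 hS _

theorem count_wm (P Q L : List ℕ) (c : ℕ) :
    (Wm P Q L).count c = (plc (P ++ Q)).count c + (L.count c + if c = 2 then 1 else 0) := by
  rw [wm_eq, plc_append, List.count_append, List.count_append, List.count_append,
    List.count_cons]
  have h1 : (if ((2 == c) : Bool) = true then 1 else 0) = if c = 2 then 1 else 0 := by
    by_cases h : c = 2
    · subst h
      simp
    · rw [if_neg h, if_neg]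
      rw [beq_iff_eq]
      exact fun h' => h h'.symm
  rw [h1]
  omega

theorem count_wm0 (P Q L : List ℕ) (c : ℕ) (hc : c % 3 = 0) : (Wm P Q L).count c = L.count c := by
  rw [count_wm, count_plc0 _ _ hc, if_neg (by omega)]
  omega

theorem count_wm1 (P Q L : List ℕ) (i : ℕ) :
    (Wm P Q L).count (3 * i + 1) = (P ++ Q).count i + L.count (3 * i + 1) := by
  rw [count_wm, count_plc, if_neg (by omega)]
  omega

theorem count_wm2 {P Q L : List ℕ} (hn : (P ++ Q).Nodup) (hL : ∀ a ∈ L, a % 3 ≠ 2) (c : ℕ)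
    (hc : c % 3 = 2) : (Wm P Q L).count c ≤ 1 := by
  have h1 : L.count c = 0 := List.count_eq_zero.2 (fun h => hL c h hc)
  rw [count_wm, h1]
  by_cases h : c = 2
  · have h2 : (plc (P ++ Q)).count c = 0 := by
      rw [List.count_eq_zero]
      intro hc
      rcases mem_plc hc with ⟨e, _, h2⟩ | ⟨e, _, h2⟩ <;> omega
    rw [h2, if_pos h]
  · rw [if_neg h]
    have := count_plc_le hn c
    omega

theorem flat_count (l : List ℕ) (φ : ℕ → List ℕ) (g d : ℕ) :
    l.count g * (φ g).count d ≤ (l.flatMap φ).count d := by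
  induction l with
  | nil => simp
  | cons a l ih =>
    rw [List.flatMap_cons, List.count_append, List.count_cons]
    by_cases h : a = g
    · subst h
      rw [if_pos (beq_self_eq_true a), add_mul, one_mul]
      omega
    · rw [if_neg (by rw [beq_iff_eq]; exact h), add_zero]
      omega

/-! ### main blocks -/

/-- main blocks with the letters `3 i + 1`, `i` in `S`, once, and other letters `≡ 0 (mod 3)` at least
twice -/
structure ML (S L : List ℕ) : Prop where
  sf : ∀ a ∈ L, a % 3 ≠ 2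
  pl : ∀ i ∈ S, L.count (3 * i + 1) = 1
  ps : ∀ a ∈ L, a % 3 = 1 → ∃ i ∈ S, a = 3 * i + 1
  lc : ∀ a ∈ L, a % 3 = 0 → 2 ≤ L.count a

theorem ML.perm {S L L' : List ℕ} (h : ML S L) (hp : L'.Perm L) : ML S L' where
  sf a ha := h.sf a (hp.subset ha)
  pl i hi := by rw [hp.count_eq]; exact h.pl i hi
  ps a ha := h.ps a (hp.subset ha)
  lc a ha := by rw [hp.count_eq]; exact h.lc a (hp.subset ha)

theorem bl_sf {P Q K : List ℕ} (hK : ML (P ++ Q) K) : ∀ r ∈ lab P Q, SFr (bl K r) := by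
  intro r _ c hc
  unfold bl at hc
  by_cases h : r = 0
  · rw [if_pos h] at hc
    exact hK.sf c hc
  · rw [if_neg h, List.mem_singleton] at hc
    omega

theorem bl_zero (K : List ℕ) : bl K 0 = K := by
  unfold bl
  rw [if_pos rfl]

theorem bl_succ (K : List ℕ) (i : ℕ) : bl K (i + 1) = [3 * i + 1] := by
  unfold bl
  rw [if_neg (by omega), Nat.add_sub_cancel]

theorem count_two {P Q K : List ℕ} (hn : (P ++ Q).Nodup) (hK : ML (P ++ Q) K) {i : ℕ}
    (hi : i ∈ P ++ Q) : (Wm P Q K).count (3 * i + 1) = 2 := by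
  rw [count_wm1, hK.pl i hi, List.count_eq_one_of_mem hn hi]

theorem three_eq {P Q K : List ℕ} (hn : (P ++ Q).Nodup) (hK : ML (P ++ Q) K) {c0 d : ℕ}
    (h0 : ∀ a ∈ K, a % 3 = 0 → a ≠ c0 → K.count a ≤ 2) (hd : 3 ≤ (Wm P Q K).count d) :
    d = c0 := by
  rcases (by omega : d % 3 = 0 ∨ d % 3 = 1 ∨ d % 3 = 2) with h | h | h
  · rw [count_wm0 _ _ _ _ h] at hd
    by_contra hne
    have h1 : d ∈ K := List.count_pos_iff.1 (by omega)
    have := h0 d h1 h hne
    omega
  · have h1 : d = 3 * (d / 3) + 1 := by omega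
    rw [h1, count_wm1] at hd
    have h2 : (P ++ Q).count (d / 3) ≤ 1 := List.nodup_iff_count_le_one.1 hn _
    have h3 : K.count (3 * (d / 3) + 1) ≤ 1 := by
      by_cases h4 : 3 * (d / 3) + 1 ∈ K
      · obtain ⟨i, hi, h5⟩ := hK.ps _ h4 (by omega)
        rw [h5, hK.pl i hi]
      · rw [List.count_eq_zero.2 h4]
        exact Nat.zero_le _
    omega
  · have := count_wm2 (P := P) (Q := Q) hn hK.sf d h
    omega

/-- the application of CNT -/
theorem cnt_app (cnt : CntStmt) {P Q L K M N : List ℕ} {φ : ℕ → List ℕ} {g d : ℕ}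
    (hn : (P ++ Q).Nodup) (hL : ML (P ++ Q) L) (hK : ML (P ++ Q) K)
    (heq : M ++ ((Wm P Q L).flatMap φ ++ N) = Wm P Q K) (hLg : L.count g = 3) (hd : d ∈ φ g)
    (hd0 : d % 3 = 0) (hKd : K.count d = 3) :
    ((∀ i ∈ P, Btw d (3 * i + 1) K) → ∀ i ∈ P, Btw g (3 * i + 1) L ∧ 3 * i + 1 ∈ φ (3 * i + 1)) ∧
    ((∀ i ∈ Q, Btw d (3 * i + 1) K) →
      ∀ i ∈ Q, Btw g (3 * i + 1) L ∧ 3 * i + 1 ∈ φ (3 * i + 1)) := by
  have hW : Wk (fun i => 3 * i + 1) P Q L = Wm P Q L := rfl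
  have hB : Bw (lab P Q) (bl K) ++ [] = Wm P Q K := by
    rw [List.append_nil]
    rfl
  have hmain := cnt (fun i => 3 * i + 1) P Q L (P ++ Q) φ M N (bl K) [] g d 3 hn
    (by
      intro i hi
      refine ⟨hi, rfl, hL.pl i hi, ?_⟩
      rw [hW]
      exact count_two hn hL hi)
    (by
      intro a ha
      rcases (by omega : a % 3 = 0 ∨ a % 3 = 1 ∨ a % 3 = 2) with h | h | h
      · exact Or.inr (Or.inl (hL.lc a ha h))
      · exact Or.inl (hL.ps a ha h)
      · exact absurd h (hL.sf a ha))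
    (bl_sf hK) (by intro c hc; simp at hc)
    (by
      intro i hi
      rw [hB, bl_zero, bl_succ]
      exact ⟨hK.pl i hi, by simp, count_two hn hK hi⟩)
    (by rw [hW, hB]; exact heq) (by norm_num) hLg hd
    (by rw [hB, count_wm0 _ _ _ _ hd0]; exact hKd) (by rw [bl_zero]; exact hKd)
  rw [bl_zero] at hmain
  refine ⟨fun h i hi => ?_, fun h i hi => ?_⟩
  · exact hmain.1 (fun j _ hj => h j hj) i (List.mem_append_left _ hi) hi
  · exact hmain.2 (fun j _ hj => h j hj) i (List.mem_append_right _ hi) hi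

/-- the application of SNG -/
theorem sng_app (sng : SngStmt) {P Q L K M N : List ℕ} {φ : ℕ → List ℕ} {i : ℕ}
    (hn : (P ++ Q).Nodup) (hK : ML (P ++ Q) K)
    (heq : M ++ ((Wm P Q L).flatMap φ ++ N) = Wm P Q K) (hi : i ∈ P) (hiL : 3 * i + 1 ∈ L)
    (hφ : 3 * i + 1 ∈ φ (3 * i + 1)) : φ (3 * i + 1) = [3 * i + 1] := by
  have h1 : 3 * i + 1 ∈ plc P := by
    have h2 : 0 < (plc P).count (3 * i + 1) := by
      rw [count_plc]
      exact List.count_pos_iff.2 hi
    exact List.count_pos_iff.1 h2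
  obtain ⟨A1, A2, hA⟩ := List.append_of_mem h1
  obtain ⟨C1, C2, hC⟩ := List.append_of_mem hiL
  have hiS : i ∈ P ++ Q := List.mem_append_left _ hi
  have hB : Bw (lab P Q) (bl K) ++ [] = Wm P Q K := by
    rw [List.append_nil]
    rfl
  have e1 : Wm P Q K = (M ++ A1.flatMap φ) ++ (φ (3 * i + 1) ++ ((A2.flatMap φ ++ C1.flatMap φ) ++
      (φ (3 * i + 1) ++ (C2.flatMap φ ++ (φ 2 ++ ((plc Q).flatMap φ ++ N)))))) := by
    rw [← heq, wm_eq, hA, hC]
    simp only [List.flatMap_append, List.flatMap_cons, List.append_assoc]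
  have h3 := sng P Q (bl K) [] i (M ++ A1.flatMap φ) (φ (3 * i + 1))
    (A2.flatMap φ ++ C1.flatMap φ) (C2.flatMap φ ++ (φ 2 ++ ((plc Q).flatMap φ ++ N))) hn
    (bl_sf hK) (by intro c hc; simp at hc) hiS (by rw [bl_zero]; exact hK.pl i hiS)
    (by rw [bl_succ]; simp) (by rw [hB]; exact count_two hn hK hiS) (by rw [hB]; exact e1) hφ
  have h4 : ∀ a ∈ φ (3 * i + 1), 3 * i + 1 = a := by
    intro a ha
    have h5 := (h3 a ha).1
    rw [bl_succ, List.mem_singleton] at h5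
    exact h5.symm
  have h5 : (φ (3 * i + 1)).count (3 * i + 1) = (φ (3 * i + 1)).length :=
    List.count_eq_length.2 h4
  have h6 := count_two hn hK hiS
  rw [e1] at h6
  simp only [List.count_append] at h6
  have h7 : (φ (3 * i + 1)).length ≤ 1 := by omega
  obtain ⟨a, ha⟩ : ∃ a, φ (3 * i + 1) = [a] := by
    apply List.length_eq_one_iff.1
    have h8 : 0 < (φ (3 * i + 1)).length := List.length_pos_of_mem hφ
    omega
  rw [ha]
  rw [ha, List.mem_singleton] at hφ
  rw [hφ]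

/-! ### letters between two letters -/

theorem not_btw1 {A C : List ℕ} {y z : ℕ} (hA : z ∉ A) (hC : y ∉ C) : ¬ Btw y z (A ++ C) := by
  rw [btw_iff]
  intro h
  obtain ⟨l1, l2, h1, h2, h3⟩ := List.sublist_append_iff.1 h
  have h4 : y ∉ l2 := fun h => hC (h3.subset h)
  have h5 : z ∉ l1 := fun h => hA (h2.subset h)
  rcases l1 with _ | ⟨a, _ | ⟨b, l⟩⟩
  · rw [List.nil_append] at h1
    rw [← h1] at h4
    simp at h4
  · simp only [List.cons_append, List.nil_append, List.cons.injEq] at h1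
    rw [← h1.2] at h4
    simp at h4
  · simp only [List.cons_append, List.cons.injEq] at h1
    apply h5
    rw [← h1.2.1]
    simp

theorem not_btw2 {A C : List ℕ} {y z : ℕ} (hA : y ∉ A) (hC : z ∉ C) : ¬ Btw y z (A ++ C) := by
  rw [btw_iff]
  intro h
  obtain ⟨l1, l2, h1, h2, h3⟩ := List.sublist_append_iff.1 h
  have h4 : y ∉ l1 := fun h => hA (h2.subset h)
  have h5 : z ∉ l2 := fun h => hC (h3.subset h)
  rcases l1 with _ | ⟨a, l⟩
  · rw [List.nil_append] at h1
    rw [← h1] at h5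
    simp at h5
  · simp only [List.cons_append, List.cons.injEq] at h1
    apply h4
    rw [← h1.1]
    simp

/-! ### the main blocks of the pentagon -/

section conf

variable {γ : List ℕ} {P1 P2 Q1 Q2 : List ℕ} {e f a b z : ℕ}

/-- the blocks contain the letters of `T` (multiples of `3`), `z_z`, `z_a`, `z_b` and `γ` -/
theorem ml_base (hcan : Can (P1 ++ f :: P2) (Q1 ++ e :: Q2) γ)
    (hnd : ((P1 ++ a :: b :: f :: P2) ++ (Q1 ++ e :: z :: Q2)).Nodup) (T : List ℕ)
    (hT : ∀ t ∈ T, t % 3 = 0 ∧ 2 ≤ T.count t) :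
    ML ((P1 ++ a :: b :: f :: P2) ++ (Q1 ++ e :: z :: Q2))
      (T ++ (3 * z + 1) :: (3 * a + 1) :: (3 * b + 1) :: γ) := by
  obtain ⟨S0, hS0⟩ : ∃ S0, S0 = (P1 ++ f :: P2) ++ (Q1 ++ e :: Q2) := ⟨_, rfl⟩
  have hp : ((P1 ++ a :: b :: f :: P2) ++ (Q1 ++ e :: z :: Q2)).Perm (z :: a :: b :: S0) := by
    rw [hS0, List.perm_iff_count]
    intro c
    simp only [List.count_cons, List.count_append]
    omega
  have hnd2 := hp.nodup_iff.1 hnd
  have hz : z ∉ S0 := by
    intro h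
    have := List.nodup_cons.1 hnd2
    exact this.1 (by simp [h])
  have ha : a ∉ S0 := by
    intro h
    have := List.nodup_cons.1 (List.nodup_cons.1 hnd2).2
    exact this.1 (by simp [h])
  have hb : b ∉ S0 := by
    intro h
    have := List.nodup_cons.1 (List.nodup_cons.1 (List.nodup_cons.1 hnd2).2).2
    exact this.1 h
  have hγ : ∀ i, i ∉ S0 → γ.count (3 * i + 1) = 0 := by
    intro i hi
    rw [List.count_eq_zero]
    intro h
    obtain ⟨j, hj, h2⟩ := hcan.ps _ h (by omega)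
    rw [← hS0] at hj
    have : i = j := by omega
    subst this
    exact hi hj
  have hTc : ∀ i, T.count (3 * i + 1) = 0 := by
    intro i
    rw [List.count_eq_zero]
    intro h
    have := (hT _ h).1
    omega
  have hmem : ∀ c, c ∈ T ++ (3 * z + 1) :: (3 * a + 1) :: (3 * b + 1) :: γ →
      c ∈ T ∨ c = 3 * z + 1 ∨ c = 3 * a + 1 ∨ c = 3 * b + 1 ∨ c ∈ γ := by
    intro c hc
    simpa only [List.mem_append, List.mem_cons] using hc
  have hmS : ∀ i, i ∈ ((P1 ++ a :: b :: f :: P2) ++ (Q1 ++ e :: z :: Q2)) ↔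
      i = z ∨ i = a ∨ i = b ∨ i ∈ S0 := by
    intro i
    rw [hp.mem_iff]
    simp only [List.mem_cons]
  refine ⟨?_, ?_, ?_, ?_⟩
  · intro c hc
    rcases hmem c hc with h | h | h | h | h
    · have := (hT _ h).1
      omega
    · omega
    · omega
    · omega
    · exact hcan.sf c h
  · intro i hi
    -- the list of the places
    have h1 : (T ++ (3 * z + 1) :: (3 * a + 1) :: (3 * b + 1) :: γ).count (3 * i + 1) =
        γ.count (3 * i + 1) + [z, a, b].count i := by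
      rw [List.count_append, hTc, List.count_cons, List.count_cons, List.count_cons,
        List.count_cons, List.count_cons, List.count_cons, List.count_nil]
      have h2 : ∀ j, ((3 * j + 1 == 3 * i + 1) : Bool) = (j == i) := by
        intro j
        rw [Bool.eq_iff_iff, beq_iff_eq, beq_iff_eq]
        omega
      rw [h2, h2, h2]
      omega
    rw [h1]
    have h3 : (z :: a :: b :: S0).count i = 1 :=
      List.count_eq_one_of_mem hnd2 (hp.mem_iff.1 hi)
    have h4 : (z :: a :: b :: S0) = [z, a, b] ++ S0 := rfl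
    rw [h4, List.count_append] at h3
    by_cases h5 : i ∈ S0
    · have h6 : 0 < S0.count i := List.count_pos_iff.2 h5
      have h7 : γ.count (3 * i + 1) = 1 := hcan.pl i (by rw [← hS0]; exact h5)
      omega
    · rw [hγ i h5]
      have h6 : S0.count i = 0 := List.count_eq_zero.2 h5
      omega
  · intro c hc h1
    rcases hmem c hc with h | h | h | h | h
    · have := (hT _ h).1
      omega
    · exact ⟨z, (hmS z).2 (Or.inl rfl), h⟩
    · exact ⟨a, (hmS a).2 (Or.inr (Or.inl rfl)), h⟩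
    · exact ⟨b, (hmS b).2 (Or.inr (Or.inr (Or.inl rfl))), h⟩
    · obtain ⟨i, hi, h2⟩ := hcan.ps c h h1
      rw [← hS0] at hi
      exact ⟨i, (hmS i).2 (Or.inr (Or.inr (Or.inr hi))), h2⟩
  · intro c hc h1
    rw [List.count_append]
    rcases hmem c hc with h | h | h | h | h
    · have := (hT _ h).2
      omega
    · omega
    · omega
    · omega
    · have h2 := (hcan.lc c h h1).1
      have h3 : γ.count c ≤ ((3 * z + 1) :: (3 * a + 1) :: (3 * b + 1) :: γ).count c := by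
        rw [List.count_cons, List.count_cons, List.count_cons]
        omega
      omega

end conf

theorem count_base (γ T : List ℕ) (z a b c : ℕ) (hc : c % 3 = 0) :
    (T ++ (3 * z + 1) :: (3 * a + 1) :: (3 * b + 1) :: γ).count c = T.count c + γ.count c := by
  rw [List.count_append, List.count_cons, List.count_cons, List.count_cons]
  have h : ∀ j, ((3 * j + 1 == c) : Bool) = false := by
    intro j
    rw [beq_eq_false_iff_ne]
    omega
  rw [h, h, h]
  simp

theorem only_c0 {P Q L K M N : List ℕ} {φ : ℕ → List ℕ} {g c0 d : ℕ} (hn : (P ++ Q).Nodup)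
    (hK : ML (P ++ Q) K) (h0 : ∀ a ∈ K, a % 3 = 0 → a ≠ c0 → K.count a ≤ 2)
    (heq : M ++ ((Wm P Q L).flatMap φ ++ N) = Wm P Q K) (hg : g % 3 = 0) (hLg : L.count g = 3)
    (hd : d ∈ φ g) : d = c0 := by
  apply three_eq hn hK h0
  rw [← heq, List.count_append, List.count_append]
  have h1 := flat_count (Wm P Q L) φ g d
  rw [count_wm0 _ _ _ _ hg, hLg] at h1
  have h2 : 0 < (φ g).count d := List.count_pos_iff.2 hd
  omega

theorem flat_congr {P Q L L' : List ℕ} {φ : ℕ → List ℕ} (h : L.flatMap φ = L'.flatMap φ) :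
    (Wm P Q L).flatMap φ = (Wm P Q L').flatMap φ := by
  rw [wm_eq, wm_eq, List.flatMap_append, List.flatMap_append, List.flatMap_append,
    List.flatMap_append, h]

/-- the letter `3` is deleted -/
def p3 (c : ℕ) : Bool := decide (c ≠ 3)

/-- the letter `0` is deleted -/
def p0 (c : ℕ) : Bool := decide (c ≠ 0)

theorem p3_true {c : ℕ} (h : c % 3 ≠ 0) : p3 c = true := by
  unfold p3
  rw [decide_eq_true_eq]
  rintro rfl
  exact h (by norm_num)

theorem p0_true {c : ℕ} (h : c % 3 ≠ 0) : p0 c = true := by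
  unfold p0
  rw [decide_eq_true_eq]
  rintro rfl
  exact h (by norm_num)

theorem filter_inst (p : ℕ → Bool) (M V N : List ℕ) (φ : ℕ → List ℕ) :
    (M ++ (V.flatMap φ ++ N)).filter p =
      M.filter p ++ (V.flatMap (fun x => (φ x).filter p) ++ N.filter p) := by
  rw [List.filter_append, List.filter_append, List.filter_flatMap]

theorem count_eq_one_split {K A C A' C' : List ℕ} {x : ℕ} (h : K.count x = 1)
    (h1 : K = A ++ x :: C) (h2 : K = A' ++ x :: C') : C = C' := by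
  have e1 := h
  rw [h1, List.count_append, List.count_cons_self] at e1
  have e2 := h
  rw [h2, List.count_append, List.count_cons_self] at e2
  have hA : x ∉ A := List.count_eq_zero.1 (by omega)
  have hC : x ∉ C := List.count_eq_zero.1 (by omega)
  have h3 : A ++ x :: C = A' ++ x :: C' := by rw [← h1, ← h2]
  exact ((List.append_cons_inj_of_notMem hA hC).1 h3).2.2

theorem gpn (pen : PenStmt) (gen : GenStmt) (fac : FacStmt) (sng : SngStmt) (cnt : CntStmt)
    (stb : StbStmt) (stc : StcStmt) : GpnStmt := by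
  intro β n P1 P2 Q1 Q2 e f a b z γ hG
  obtain ⟨lt, hlt⟩ := hG.lt
  have hcan := hG.nf.can
  have hnd := hG.nd
  have hSTB := stb β n P1 P2 Q1 Q2 e f a b z γ hG
  have hSTC := stc β n P1 P2 Q1 Q2 e f a b z γ hG
  obtain ⟨P, hP⟩ : ∃ P, P = P1 ++ a :: b :: f :: P2 := ⟨_, rfl⟩
  obtain ⟨Q, hQ⟩ : ∃ Q, Q = Q1 ++ e :: z :: Q2 := ⟨_, rfl⟩
  have hbase := fun T hT => ml_base (z := z) (a := a) (b := b) hcan hnd T hT
  rw [← hP, ← hQ] at hnd hSTB hSTC
  simp only [← hP, ← hQ] at hbase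
  have haP : a ∈ P := by rw [hP]; simp
  have hbP : b ∈ P := by rw [hP]; simp
  have hfP : f ∈ P := by rw [hP]; simp
  have hzQ : z ∈ Q := by rw [hQ]; simp
  have h0γ : 0 ∉ γ := fun h => by
    have := (hcan.lc 0 h (by norm_num)).2
    omega
  have h3γ : 3 ∉ γ := fun h => by
    have := (hcan.lc 3 h (by norm_num)).2
    omega
  have hγ2 : ∀ c, c % 3 = 0 → γ.count c ≤ 2 := by
    intro c hc
    by_cases h : c ∈ γ
    · rw [(hcan.lc c h hc).1]
    · rw [List.count_eq_zero.2 h]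
      exact Nat.zero_le _
  -- the blocks
  obtain ⟨K0, hK0⟩ : ∃ K0, K0 = (3 * z + 1) :: 0 :: (γ ++ [3 * a + 1, 3 * b + 1, 0, 0]) :=
    ⟨_, rfl⟩
  obtain ⟨K3, hK3⟩ : ∃ K3, K3 = 3 :: (3 * z + 1) :: (γ ++ [3, 3, 3 * a + 1, 3 * b + 1]) :=
    ⟨_, rfl⟩
  obtain ⟨Lm, hLm⟩ : ∃ Lm : List ℕ → List ℕ → List ℕ, Lm = fun x1 x2 =>
    3 :: (3 * z + 1) :: 0 :: (γ ++ (x1 ++ x2)) := ⟨_, rfl⟩
  rw [← hK0] at hSTB
  rw [← hK3] at hSTC
  have hK0p : K0.Perm ([0, 0, 0] ++ (3 * z + 1) :: (3 * a + 1) :: (3 * b + 1) :: γ) := by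
    rw [hK0, List.perm_iff_count]
    intro c
    simp only [List.count_cons, List.count_append, List.count_nil]
    omega
  have hK3p : K3.Perm ([3, 3, 3] ++ (3 * z + 1) :: (3 * a + 1) :: (3 * b + 1) :: γ) := by
    rw [hK3, List.perm_iff_count]
    intro c
    simp only [List.count_cons, List.count_append, List.count_nil]
    omega
  have hLp : ∀ x1 x2 : List ℕ, x1.Perm [3, 3, 3 * a + 1] → x2.Perm [3 * b + 1, 0, 0] →
      (Lm x1 x2).Perm ([3, 3, 3, 0, 0, 0] ++ (3 * z + 1) :: (3 * a + 1) :: (3 * b + 1) :: γ) := by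
    intro x1 x2 h1 h2
    rw [hLm, List.perm_iff_count]
    intro c
    simp only [List.count_cons, List.count_append, List.count_nil, h1.count_eq, h2.count_eq]
    omega
  have m0 : ∀ K : List ℕ, K.Perm K0 → ML (P ++ Q) K := fun K h =>
    (hbase [0, 0, 0] (by decide)).perm (h.trans hK0p)
  have m3 : ∀ K : List ℕ, K.Perm K3 → ML (P ++ Q) K := fun K h =>
    (hbase [3, 3, 3] (by decide)).perm (h.trans hK3p)
  have mL : ∀ x1 x2 : List ℕ, x1.Perm [3, 3, 3 * a + 1] → x2.Perm [3 * b + 1, 0, 0] →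
      ML (P ++ Q) (Lm x1 x2) := fun x1 x2 h1 h2 =>
    (hbase [3, 3, 3, 0, 0, 0] (by decide)).perm (hLp x1 x2 h1 h2)
  have cL0 : ∀ x1 x2 : List ℕ, x1.Perm [3, 3, 3 * a + 1] → x2.Perm [3 * b + 1, 0, 0] →
      (Lm x1 x2).count 0 = 3 := by
    intro x1 x2 h1 h2
    rw [(hLp x1 x2 h1 h2).count_eq, count_base _ _ _ _ _ _ (by norm_num),
      List.count_eq_zero.2 h0γ]
    rfl
  have cL3 : ∀ x1 x2 : List ℕ, x1.Perm [3, 3, 3 * a + 1] → x2.Perm [3 * b + 1, 0, 0] →
      (Lm x1 x2).count 3 = 3 := by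
    intro x1 x2 h1 h2
    rw [(hLp x1 x2 h1 h2).count_eq, count_base _ _ _ _ _ _ (by norm_num),
      List.count_eq_zero.2 h3γ]
    rfl
  have c0 : ∀ K : List ℕ, K.Perm K0 → K.count 0 = 3 ∧
      ∀ c ∈ K, c % 3 = 0 → c ≠ 0 → K.count c ≤ 2 := by
    intro K hK
    refine ⟨?_, ?_⟩
    · rw [(hK.trans hK0p).count_eq, count_base _ _ _ _ _ _ (by norm_num),
        List.count_eq_zero.2 h0γ]
      rfl
    · intro c _ h1 h2
      rw [(hK.trans hK0p).count_eq, count_base _ _ _ _ _ _ h1]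
      have h3 : ([0, 0, 0] : List ℕ).count c = 0 := by
        rw [List.count_eq_zero]
        simp [h2]
      rw [h3, zero_add]
      exact hγ2 c h1
  have c3 : ∀ K : List ℕ, K.Perm K3 → K.count 3 = 3 ∧
      ∀ c ∈ K, c % 3 = 0 → c ≠ 3 → K.count c ≤ 2 := by
    intro K hK
    refine ⟨?_, ?_⟩
    · rw [(hK.trans hK3p).count_eq, count_base _ _ _ _ _ _ (by norm_num),
        List.count_eq_zero.2 h3γ]
      rfl
    · intro c _ h1 h2
      rw [(hK.trans hK3p).count_eq, count_base _ _ _ _ _ _ h1]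
      have h3 : ([3, 3, 3] : List ℕ).count c = 0 := by
        rw [List.count_eq_zero]
        simp [h2]
      rw [h3, zero_add]
      exact hγ2 c h1
  -- the sets
  obtain ⟨SB, hSB⟩ : ∃ SB : List ℕ → Prop, SB = fun w => RR β (Wm P Q K0) (w.filter p3) :=
    ⟨_, rfl⟩
  obtain ⟨SC, hSC⟩ : ∃ SC : List ℕ → Prop, SC = fun w => RR β (Wm P Q K3) (w.filter p0) :=
    ⟨_, rfl⟩
  have keyB : ∀ x1 x2 : List ℕ, x1.Perm [3, 3, 3 * a + 1] → x2.Perm [3 * b + 1, 0, 0] →
      ∀ (φ : ℕ → List ℕ) (M N : List ℕ), SB (M ++ ((Wm P Q (Lm x1 x2)).flatMap φ ++ N)) →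
        (φ 3).filter p3 = [] := by
    intro x1 x2 h1 h2 φ M N hB
    by_contra hne
    obtain ⟨d, hd⟩ := List.exists_mem_of_ne_nil _ hne
    rw [hSB] at hB
    obtain ⟨K, hKp, hKe, hKb⟩ := hSTB _ hB
    rw [filter_inst] at hKe
    have hd0 := only_c0 hnd (m0 K hKp) (c0 K hKp).2 hKe (g := 3) (by norm_num)
      (cL3 x1 x2 h1 h2) hd
    subst hd0
    have h3 := (cnt_app cnt hnd (mL x1 x2 h1 h2) (m0 K hKp) hKe (g := 3) (d := 0)
      (cL3 x1 x2 h1 h2) hd (by norm_num) (c0 K hKp).1).1 hKb b hbP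
    have h4 : Lm x1 x2 = (3 :: (3 * z + 1) :: 0 :: (γ ++ x1)) ++ x2 := by
      rw [hLm]
      simp
    have h5 : (Lm x1 x2).count (3 * b + 1) = 1 :=
      (mL x1 x2 h1 h2).pl b (List.mem_append_left _ hbP)
    have h6 : x2.count (3 * b + 1) = 1 := by
      rw [h2.count_eq]
      simp
    rw [h4, List.count_append, h6] at h5
    refine not_btw1 (List.count_eq_zero.1 (by omega : _ = 0)) ?_ (h4 ▸ h3.1)
    intro h7
    have := h2.subset h7
    simp only [List.mem_cons, List.not_mem_nil, or_false] at this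
    omega
  have keyC : ∀ x1 x2 : List ℕ, x1.Perm [3, 3, 3 * a + 1] → x2.Perm [3 * b + 1, 0, 0] →
      ∀ (φ : ℕ → List ℕ) (M N : List ℕ), SC (M ++ ((Wm P Q (Lm x1 x2)).flatMap φ ++ N)) →
        (φ 0).filter p0 = [] := by
    intro x1 x2 h1 h2 φ M N hC
    by_contra hne
    obtain ⟨d, hd⟩ := List.exists_mem_of_ne_nil _ hne
    rw [hSC] at hC
    obtain ⟨K, hKp, hKe, hKb, -, -⟩ := hSTC _ hC
    rw [filter_inst] at hKe
    have hd0 := only_c0 hnd (m3 K hKp) (c3 K hKp).2 hKe (g := 0) (by norm_num)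
      (cL0 x1 x2 h1 h2) hd
    subst hd0
    have h3 := (cnt_app cnt hnd (mL x1 x2 h1 h2) (m3 K hKp) hKe (g := 0) (d := 3)
      (cL0 x1 x2 h1 h2) hd (by norm_num) (c3 K hKp).1).2 hKb z hzQ
    have h4 : Lm x1 x2 = [3, 3 * z + 1] ++ (0 :: (γ ++ (x1 ++ x2))) := by
      rw [hLm]
      rfl
    have h5 : (Lm x1 x2).count (3 * z + 1) = 1 :=
      (mL x1 x2 h1 h2).pl z (List.mem_append_right _ hzQ)
    have h6 : ([3, 3 * z + 1] : List ℕ).count (3 * z + 1) = 1 := by
      rw [List.count_cons, List.count_cons_self, List.count_nil, if_neg]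
      rw [beq_iff_eq]
      omega
    rw [h4, List.count_append, h6] at h5
    refine not_btw2 ?_ (List.count_eq_zero.1 (by omega : _ = 0)) (h4 ▸ h3.1)
    simp only [List.mem_cons, List.not_mem_nil, or_false]
    omega
  have key1 : ∀ x1 x2 : List ℕ, x1.Perm [3, 3, 3 * a + 1] → x2.Perm [3 * b + 1, 0, 0] →
      (Btw 0 (3 * b + 1) (Lm x1 x2) → ∃ A C, Lm x1 x2 = A ++ (3 * f + 1) :: (3 * a + 1) :: C) →
      ∀ (φ : ℕ → List ℕ) (M N : List ℕ), SB (M ++ ((Wm P Q (Lm x1 x2)).flatMap φ ++ N)) →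
        SC (M ++ ((Wm P Q (Lm x1 x2)).flatMap φ ++ N)) → (φ 0).filter p3 = [] := by
    intro x1 x2 h1 h2 hdec φ M N hB hC
    by_contra hne
    obtain ⟨d, hd⟩ := List.exists_mem_of_ne_nil _ hne
    have h3 := keyC x1 x2 h1 h2 φ M N hC
    have hdφ : d ∈ φ 0 := (List.mem_filter.1 hd).1
    have hd0 : d = 0 := by
      by_contra h4
      have h5 : d ∈ (φ 0).filter p0 := List.mem_filter.2 ⟨hdφ, by
        unfold p0
        rw [decide_eq_true_eq]
        exact h4⟩
      rw [h3] at h5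
      simp at h5
    subst hd0
    rw [hSB] at hB
    rw [hSC] at hC
    obtain ⟨K, hKp, hKe, hKb⟩ := hSTB _ hB
    rw [filter_inst] at hKe
    have h4 := (cnt_app cnt hnd (mL x1 x2 h1 h2) (m0 K hKp) hKe (g := 0) (d := 0)
      (cL0 x1 x2 h1 h2) hd (by norm_num) (c0 K hKp).1).1 hKb
    obtain ⟨A, C, hAC⟩ := hdec (h4 b hbP).1
    obtain ⟨K', hKp', hKe', -, hbtw, hla⟩ := hSTC _ hC
    rw [filter_inst] at hKe'
    have hmem : ∀ i, 3 * i + 1 ∈ (φ (3 * i + 1)).filter p3 →
        3 * i + 1 ∈ (φ (3 * i + 1)).filter p0 := by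
      intro i hi
      exact List.mem_filter.2 ⟨(List.mem_filter.1 hi).1, p0_true (by omega)⟩
    have hf : (φ (3 * f + 1)).filter p0 = [3 * f + 1] :=
      sng_app (φ := fun x => (φ x).filter p0) sng hnd (m3 K' hKp') hKe' hfP
        (by rw [hAC]; simp) (hmem f (h4 f hfP).2)
    have ha : (φ (3 * a + 1)).filter p0 = [3 * a + 1] :=
      sng_app (φ := fun x => (φ x).filter p0) sng hnd (m3 K' hKp') hKe' haP
        (by rw [hAC]; simp) (hmem a (h4 a haP).2)
    have e1 : Wm P Q K' = (M.filter p0 ++ ((plc P).flatMap (fun x => (φ x).filter p0) ++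
        A.flatMap (fun x => (φ x).filter p0))) ++ ([3 * f + 1, 3 * a + 1] ++
        (C.flatMap (fun x => (φ x).filter p0) ++ ((φ 2).filter p0 ++
          ((plc Q).flatMap (fun x => (φ x).filter p0) ++ N.filter p0)))) := by
      rw [← hKe', wm_eq, hAC]
      simp only [List.flatMap_append, List.flatMap_cons, List.append_assoc, hf, ha]
      rfl
    obtain ⟨R1, r, R2, a', c', hR, hr, -, -⟩ := fac (lab P Q) (bl K') _ [3 * f + 1, 3 * a + 1] _
      (bl_sf (m3 K' hKp')) (by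
        intro c hc
        simp only [List.mem_cons, List.not_mem_nil, or_false] at hc
        omega) (by simp) e1
    have hr0 : r = 0 := by
      by_contra h
      unfold bl at hr
      rw [if_neg h] at hr
      have := congrArg List.length hr
      simp only [List.length_append, List.length_cons, List.length_nil] at this
      omega
    rw [hr0, bl_zero] at hr
    have ca : K'.count (3 * a + 1) = 1 := (m3 K' hKp').pl a (List.mem_append_left _ haP)
    have cf : K'.count (3 * f + 1) = 1 := (m3 K' hKp').pl f (List.mem_append_left _ hfP)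
    obtain ⟨A4, C4, hA4, hC4⟩ := hla
    have hr1 : K' = (a' ++ [3 * f + 1]) ++ (3 * a + 1) :: c' := by
      rw [hr]
      simp
    have h5 := count_eq_one_split ca hA4 hr1
    rw [h5] at hC4
    have hr2 : K' = a' ++ ((3 * f + 1) :: (3 * a + 1) :: c') := by
      rw [hr]
      simp
    rw [hr2] at hbtw
    refine not_btw1 ?_ ?_ hbtw
    · rw [hr2, List.count_append, List.count_cons_self] at cf
      exact List.count_eq_zero.1 (by omega)
    · simp only [List.mem_cons, not_or]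
      exact ⟨by omega, by omega, hC4⟩
  -- exchanges
  have swB : ∀ (x1 x2 y1 y2 : List ℕ) (φ : ℕ → List ℕ) (M N : List ℕ),
      (Lm x1 x2).flatMap (fun x => (φ x).filter p3) =
        (Lm y1 y2).flatMap (fun x => (φ x).filter p3) →
      SB (M ++ ((Wm P Q (Lm x1 x2)).flatMap φ ++ N)) →
        SB (M ++ ((Wm P Q (Lm y1 y2)).flatMap φ ++ N)) := by
    intro x1 x2 y1 y2 φ M N h1 h2
    rw [hSB] at h2 ⊢
    simp only at h2 ⊢
    rw [filter_inst] at h2 ⊢
    rw [← flat_congr h1]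
    exact h2
  have swC : ∀ (x1 x2 y1 y2 : List ℕ) (φ : ℕ → List ℕ) (M N : List ℕ),
      (Lm x1 x2).flatMap (fun x => (φ x).filter p0) =
        (Lm y1 y2).flatMap (fun x => (φ x).filter p0) →
      SC (M ++ ((Wm P Q (Lm x1 x2)).flatMap φ ++ N)) →
        SC (M ++ ((Wm P Q (Lm y1 y2)).flatMap φ ++ N)) := by
    intro x1 x2 y1 y2 φ M N h1 h2
    rw [hSC] at h2 ⊢
    simp only at h2 ⊢
    rw [filter_inst] at h2 ⊢
    rw [← flat_congr h1]
    exact h2
  -- the four words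
  have pX : ([3 * a + 1, 3, 3] : List ℕ).Perm [3, 3, 3 * a + 1] :=
    List.perm_append_comm (l₁ := [3 * a + 1]) (l₂ := [3, 3])
  have pY : ([0, 0, 3 * b + 1] : List ℕ).Perm [3 * b + 1, 0, 0] :=
    List.perm_append_comm (l₁ := [0, 0]) (l₂ := [3 * b + 1])
  have rX : ([3, 3, 3 * a + 1] : List ℕ).Perm [3, 3, 3 * a + 1] := List.Perm.refl _
  have rY : ([3 * b + 1, 0, 0] : List ℕ).Perm [3 * b + 1, 0, 0] := List.Perm.refl _
  have flX : ∀ (y : List ℕ) (φ : ℕ → List ℕ), φ 3 = [] →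
      (Lm [3, 3, 3 * a + 1] y).flatMap φ = (Lm [3 * a + 1, 3, 3] y).flatMap φ := by
    intro y φ h
    rw [hLm]
    simp only [List.flatMap_cons, List.flatMap_append, List.flatMap_nil, h, List.nil_append,
      List.append_nil]
  have flY : ∀ (x : List ℕ) (φ : ℕ → List ℕ), φ 0 = [] →
      (Lm x [3 * b + 1, 0, 0]).flatMap φ = (Lm x [0, 0, 3 * b + 1]).flatMap φ := by
    intro x φ h
    rw [hLm]
    simp only [List.flatMap_cons, List.flatMap_append, List.flatMap_nil, h, List.nil_append,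
      List.append_nil]
  have iffX : ∀ y : List ℕ, y.Perm [3 * b + 1, 0, 0] → ∀ (φ : ℕ → List ℕ) (M N : List ℕ),
      SB (M ++ ((Wm P Q (Lm [3, 3, 3 * a + 1] y)).flatMap φ ++ N)) ↔
        SB (M ++ ((Wm P Q (Lm [3 * a + 1, 3, 3] y)).flatMap φ ++ N)) := by
    intro y hy φ M N
    constructor
    · intro h
      exact swB _ _ _ _ φ M N (flX y _ (keyB _ _ rX hy φ M N h)) h
    · intro h
      exact swB _ _ _ _ φ M N (flX y _ (keyB _ _ pX hy φ M N h)).symm h
  have iffY : ∀ x : List ℕ, x.Perm [3, 3, 3 * a + 1] → ∀ (φ : ℕ → List ℕ) (M N : List ℕ),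
      SC (M ++ ((Wm P Q (Lm x [3 * b + 1, 0, 0])).flatMap φ ++ N)) ↔
        SC (M ++ ((Wm P Q (Lm x [0, 0, 3 * b + 1])).flatMap φ ++ N)) := by
    intro x hx φ M N
    constructor
    · intro h
      exact swC _ _ _ _ φ M N (flY x _ (keyC _ _ hx rY φ M N h)) h
    · intro h
      exact swC _ _ _ _ φ M N (flY x _ (keyC _ _ hx pY φ M N h)).symm h
  have dec01 : Btw 0 (3 * b + 1) (Lm [3 * a + 1, 3, 3] [3 * b + 1, 0, 0]) →
      ∃ A C, Lm [3 * a + 1, 3, 3] [3 * b + 1, 0, 0] =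
        A ++ (3 * f + 1) :: (3 * a + 1) :: C := by
    intro _
    refine ⟨3 :: (3 * z + 1) :: 0 :: lt, [3, 3] ++ [3 * b + 1, 0, 0], ?_⟩
    rw [hLm, hlt]
    simp
  have nb : ∀ x1 : List ℕ, x1.Perm [3, 3, 3 * a + 1] →
      ¬ Btw 0 (3 * b + 1) (Lm x1 [0, 0, 3 * b + 1]) := by
    intro x1 h1
    have h4 : Lm x1 [0, 0, 3 * b + 1] =
        (3 :: (3 * z + 1) :: 0 :: (γ ++ (x1 ++ [0, 0]))) ++ [3 * b + 1] := by
      rw [hLm]
      simp
    have h5 : (Lm x1 [0, 0, 3 * b + 1]).count (3 * b + 1) = 1 :=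
      (mL x1 _ h1 pY).pl b (List.mem_append_left _ hbP)
    have h6 : ([3 * b + 1] : List ℕ).count (3 * b + 1) = 1 := by simp
    rw [h4] at h5 ⊢
    rw [List.count_append, h6] at h5
    apply not_btw1
    · exact List.count_eq_zero.1 (by omega : _ = 0)
    · rw [List.mem_singleton]
      omega
  have dec11 : Btw 0 (3 * b + 1) (Lm [3 * a + 1, 3, 3] [0, 0, 3 * b + 1]) →
      ∃ A C, Lm [3 * a + 1, 3, 3] [0, 0, 3 * b + 1] =
        A ++ (3 * f + 1) :: (3 * a + 1) :: C := fun h => absurd h (nb _ pX)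
  have iffA : ∀ (φ : ℕ → List ℕ) (M N : List ℕ),
      (SB (M ++ ((Wm P Q (Lm [3 * a + 1, 3, 3] [3 * b + 1, 0, 0])).flatMap φ ++ N)) ∧
        SC (M ++ ((Wm P Q (Lm [3 * a + 1, 3, 3] [3 * b + 1, 0, 0])).flatMap φ ++ N))) ↔
      (SB (M ++ ((Wm P Q (Lm [3 * a + 1, 3, 3] [0, 0, 3 * b + 1])).flatMap φ ++ N)) ∧
        SC (M ++ ((Wm P Q (Lm [3 * a + 1, 3, 3] [0, 0, 3 * b + 1])).flatMap φ ++ N))) := by
    intro φ M N
    constructor
    · rintro ⟨h1, h2⟩
      have h3 := key1 _ _ pX rY dec01 φ M N h1 h2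
      exact ⟨swB _ _ _ _ φ M N (flY _ _ h3) h1, (iffY _ pX φ M N).1 h2⟩
    · rintro ⟨h1, h2⟩
      have h3 := key1 _ _ pX pY dec11 φ M N h1 h2
      exact ⟨swB _ _ _ _ φ M N (flY _ _ h3).symm h1, (iffY _ pX φ M N).2 h2⟩
  have keepB : ∀ w w' : List ℕ, RR β w w' → SB w → SB w' := by
    intro w w' h h1
    rw [hSB] at h1 ⊢
    exact β.trans h1 (h.filter p3)
  have keepC : ∀ w w' : List ℕ, RR β w w' → SC w → SC w' := by
    intro w w' h h1
    rw [hSC] at h1 ⊢
    exact β.trans h1 (h.filter p0)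
  have fγ3 : γ.filter p3 = γ := List.filter_eq_self.2 (fun c hc => by
    unfold p3
    rw [decide_eq_true_eq]
    rintro rfl
    exact h3γ hc)
  have fγ0 : γ.filter p0 = γ := List.filter_eq_self.2 (fun c hc => by
    unfold p0
    rw [decide_eq_true_eq]
    rintro rfl
    exact h0γ hc)
  have f3z : ∀ i, p3 (3 * i + 1) = true := fun i => p3_true (by omega)
  have f0z : ∀ i, p0 (3 * i + 1) = true := fun i => p0_true (by omega)
  have f33 : p3 3 = false := rfl
  have f30 : p3 0 = true := rfl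
  have f00 : p0 0 = false := rfl
  have f03 : p0 3 = true := rfl
  have eB : (Wm P Q (Lm [3, 3, 3 * a + 1] [3 * b + 1, 0, 0])).filter p3 = Wm P Q K0 := by
    rw [wm_filter _ _ _ _ (fun c hc => p3_true hc), hLm, hK0]
    congr 1
    simp only [List.filter_cons, List.filter_append, List.filter_nil, fγ3, f3z, f33, f30]
    simp
  have eC : (Wm P Q (Lm [3, 3, 3 * a + 1] [3 * b + 1, 0, 0])).filter p0 = Wm P Q K3 := by
    rw [wm_filter _ _ _ _ (fun c hc => p0_true hc), hLm, hK3]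
    congr 1
    simp only [List.filter_cons, List.filter_append, List.filter_nil, fγ0, f0z, f03, f00]
    simp
  have in00 : SB (Wm P Q (Lm [3, 3, 3 * a + 1] [3 * b + 1, 0, 0])) ∧
      SC (Wm P Q (Lm [3, 3, 3 * a + 1] [3 * b + 1, 0, 0])) := by
    rw [hSB, hSC]
    constructor
    · simp only
      rw [eB]
      exact RR.refl _
    · simp only
      rw [eC]
      exact RR.refl _
  have nin10 : ¬ (SB (Wm P Q (Lm [3, 3, 3 * a + 1] [0, 0, 3 * b + 1])) ∧
      SC (Wm P Q (Lm [3, 3, 3 * a + 1] [0, 0, 3 * b + 1]))) := by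
    rintro ⟨h, -⟩
    rw [hSB] at h
    obtain ⟨K, hKp, hKe, hKb⟩ := hSTB _ h
    rw [wm_filter _ _ _ _ (fun c hc => p3_true hc)] at hKe
    have h1 := wm_inj hKe
    have h2 : (Lm [3, 3, 3 * a + 1] [0, 0, 3 * b + 1]).filter p3 =
        ((3 * z + 1) :: 0 :: (γ ++ [3 * a + 1, 0, 0])) ++ [3 * b + 1] := by
      rw [hLm]
      simp only [List.filter_cons, List.filter_append, List.filter_nil, fγ3, f3z, f33, f30]
      simp
    rw [h2] at h1
    have h3 : K.count (3 * b + 1) = 1 := (m0 K hKp).pl b (List.mem_append_left _ hbP)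
    have h6 : ([3 * b + 1] : List ℕ).count (3 * b + 1) = 1 := by simp
    have h4 := hKb b hbP
    rw [← h1] at h3 h4
    rw [List.count_append, h6] at h3
    refine not_btw1 (List.count_eq_zero.1 (by omega : _ = 0)) ?_ h4
    rw [List.mem_singleton]
    omega
  -- the congruences
  obtain ⟨ρ, hβρ, hρ1, hρ2, hρ3⟩ := gen β (fun e =>
    e = (Wm P Q (Lm [3 * a + 1, 3, 3] [3 * b + 1, 0, 0]),
      Wm P Q (Lm [3 * a + 1, 3, 3] [0, 0, 3 * b + 1])))
  obtain ⟨σ, hβσ, hσ1, hσ2, hσ3⟩ := gen β (fun e =>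
    e = (Wm P Q (Lm [3, 3, 3 * a + 1] [3 * b + 1, 0, 0]),
      Wm P Q (Lm [3 * a + 1, 3, 3] [3 * b + 1, 0, 0])) ∨
    e = (Wm P Q (Lm [3, 3, 3 * a + 1] [0, 0, 3 * b + 1]),
      Wm P Q (Lm [3 * a + 1, 3, 3] [0, 0, 3 * b + 1])))
  obtain ⟨τ, hβτ, hτ1, hτ2, hτ3⟩ := gen β (fun e =>
    e = (Wm P Q (Lm [3 * a + 1, 3, 3] [3 * b + 1, 0, 0]),
      Wm P Q (Lm [3 * a + 1, 3, 3] [0, 0, 3 * b + 1])) ∨
    e = (Wm P Q (Lm [3, 3, 3 * a + 1] [3 * b + 1, 0, 0]),
      Wm P Q (Lm [3, 3, 3 * a + 1] [0, 0, 3 * b + 1])))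
  refine pen β hG.nf.hc.md ρ σ τ (fun w => SB w ∧ SC w) SB SC hβρ hβσ hβτ ?_ ?_ ?_ ?_
    (fun w h => h) (fun w h1 h2 => ⟨h1, h2⟩)
    (Wm P Q (Lm [3, 3, 3 * a + 1] [3 * b + 1, 0, 0]))
    (Wm P Q (Lm [3, 3, 3 * a + 1] [0, 0, 3 * b + 1])) in00 nin10 ?_ ?_
  · apply hρ2 τ hβτ
    intro e he
    exact hτ1 e (Or.inl he)
  · apply hρ3
    · intro w w' h h1
      exact ⟨keepB w w' h h1.1, keepC w w' h h1.2⟩
    · rintro e rfl φ M N
      exact iffA φ M N
  · apply hσ3
    · exact keepB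
    · rintro e (rfl | rfl) φ M N
      · exact iffX _ rY φ M N
      · exact iffX _ pY φ M N
  · apply hτ3
    · exact keepC
    · rintro e (rfl | rfl) φ M N
      · exact iffY _ pX φ M N
      · exact iffY _ rX φ M N
  · exact hτ1 _ (Or.inr rfl)
  · have s1 := FIC.le_sup_right ρ σ _ _ (hσ1 _ (Or.inl rfl))
    have s2 := FIC.le_sup_left ρ σ _ _ (hρ1 _ rfl)
    have s3 := FIC.le_sup_right ρ σ _ _ (hσ1 _ (Or.inr rfl))
    exact (FIC.sup ρ σ).trans s1 ((FIC.sup ρ σ).trans s2 ((FIC.sup ρ σ).symm s3))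

end Pool.Agent.MVD.H41
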